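import Pool.Agent.Helper85_CYD.St2

/-! # CYD, modules RPC and RPW: representations of (iterated) quotients -/

set_option autoImplicit false

open Polynomial IsLocalRing

namespace Pool.Agent.CYD

theorem red_mul29 (L : Type) [CommRing L] (f g : ℤ[X]) : red L (f * g) = red L f * red L g := by
  unfold red
  exact Polynomial.map_mul _

theorem dvd_mul_sub29 {R : Type} [CommRing R] (d a b x y : R) (h1 : d ∣ a - x) (h2 : d ∣ b - y) :
    d ∣ a * b - x * y := by
  have : a * b - x * y = (a - x) * b + x * (b - y) := by ring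
  rw [this]
  exact dvd_add (Dvd.dvd.mul_right h1 _) (Dvd.dvd.mul_left h2 _)

theorem rpc : RpcStmt := by
  intro p K _ _ A z w w' N P N' P' μ μ' hp hw' h h'
  obtain ⟨e, F, G, x, y, h1, h2, h3, h4, h5, h6, h7⟩ := h
  obtain ⟨e', F', G', x', y', h1', h2', h3', h4', h5', h6', h7'⟩ := h'
  have hpK : (p : K) ≠ 0 := by exact_mod_cast hp
  refine ⟨e - e', F * G', G * F', x * y', y * x', ?_, ?_, ?_, ?_, ?_, ?_, ?_⟩
  · rw [map_mul, map_mul, zpow_sub₀ hpK, ← h1, ← h1']
    have hpe : (p : K) ^ e' ≠ 0 := zpow_ne_zero _ hpK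
    field_simp
  · rw [red_mul29, Polynomial.mul_comp]
    exact dvd_mul_sub29 _ _ _ _ _ h2 h3'
  · rw [red_mul29, Polynomial.mul_comp]
    exact dvd_mul_sub29 _ _ _ _ _ h3 h2'
  · exact mul_ne_zero h4 h5'
  · exact mul_ne_zero h5 h4'
  · have e1 : x * y' * (y * x') = (x * y) * (x' * y') := by ring
    rw [e1, Polynomial.rootMultiplicity_mul (mul_ne_zero (mul_ne_zero h4 h5) (mul_ne_zero h4' h5'))]
    omega
  · rw [derivative_mul, derivative_mul]
    linear_combination (x' * y' * P') * h7 - (x * y * P) * h7'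

theorem WW_ne_zero29 {K : Type} [Field K] (u : ℕ → K) (n : ℕ)
    (hu : ∀ k : ℕ, k.Coprime n → u k ≠ 0) (T : List (ℕ × ℕ)) (hT : ∀ x ∈ T, x.1.Coprime n) :
    ∀ k : ℕ, k.Coprime n → WW u T k ≠ 0 := by
  induction T with
  | nil => intro k hk; exact hu k hk
  | cons x t ih =>
    intro k hk
    have ht : ∀ x ∈ t, x.1.Coprime n := fun y hy => hT y (List.mem_cons_of_mem _ hy)
    have hx := hT x List.mem_cons_self
    exact div_ne_zero (ih ht _ (Nat.Coprime.mul_left hx hk)) (ih ht _ hk)

theorem rpw (hR : RpcStmt) : RpwStmt := by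
  intro p m K _ _ A z u A' B' μ hp hpA hu hrep T
  induction T with
  | nil =>
    intro _ k D hk hD
    simpa [WW, WP] using hrep k D hk hD
  | cons x t ih =>
    intro hT k D hk hD
    have ht : ∀ x ∈ t, x.1.Coprime (p * m) ∧ x.1 ≡ x.2 [MOD p] :=
      fun y hy => hT y (List.mem_cons_of_mem _ hy)
    obtain ⟨hx1, hx2⟩ := hT x List.mem_cons_self
    have ih1 := ih ht (x.1 * k) (D * x.2) (Nat.Coprime.mul_left hx1 hk)
      (by rw [mul_comm D x.2]; exact hx2.mul hD)
    have ih2 := ih ht k D hk hD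
    have hne := WW_ne_zero29 u (p * m) hu t (fun y hy => (ht y hy).1) k hk
    have key := hR p K A z _ _ _ _ _ _ _ _ hp.ne_zero hne ih1 ih2
    have e1 : 2 ^ (x :: t).length * μ = 2 ^ t.length * μ + 2 ^ t.length * μ := by
      rw [List.length_cons, pow_succ]; ring
    rw [e1]
    have e2 : (WP A' B' (x :: t) k).1 = C (x.2 : ResidueField A) *
        expand _ x.2 (WP A' B' t (x.1 * k)).1 * (WP A' B' t k).2 -
        (WP A' B' t k).1 * expand _ x.2 (WP A' B' t (x.1 * k)).2 := rfl
    have e3 : (WP A' B' (x :: t) k).2 =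
      expand _ x.2 (WP A' B' t (x.1 * k)).2 * (WP A' B' t k).2 := rfl
    have e4 : WW u (x :: t) k = WW u t (x.1 * k) / WW u t k := rfl
    rw [e2, e3, e4]
    convert key using 1
    · rw [map_sub, map_mul, map_mul, map_mul, expand_C, expand_expand, expand_expand]
      push_cast
      rw [map_mul]
      ring
    · rw [map_mul, expand_expand]

end Pool.Agent.CYD
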